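import Pool.Agent.Helper82.SG.St

set_option autoImplicit false

namespace Pool.Agent.Helper28.SG

open Finset Real MeasureTheory Pool.Agent.Helper77.Steiner Pool.Agent.Helper82.SG
open Relation (EqvGen)
open Pool.Agent.Helper77.GP (mstLen_le_list)
open Pool.Agent.Helper18.GP (nlen NConn)
open scoped ENNReal

private lemma eqvGen_map {E F : Type} (m : List (E × E)) (f : E → F) {a b : E}
    (h : EqvGen (fun x y => (x, y) ∈ m) a b) :
    EqvGen (fun x y => (x, y) ∈ m.map fun e => (f e.1, f e.2)) (f a) (f b) := by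
  induction h with
  | rel x y h => exact EqvGen.rel _ _ (List.mem_map.2 ⟨(x, y), h, rfl⟩)
  | refl x => exact EqvGen.refl _
  | symm x y _ ih => exact EqvGen.symm _ _ ih
  | trans x y z _ _ ih1 ih2 => exact EqvGen.trans _ _ _ ih1 ih2

private lemma nlen_map_le {E F : Type} [MetricSpace E] [MetricSpace F] (B : Finset E) (f : E → F)
    (s c : ℝ) (hf : ∀ x ∈ B, ∀ y ∈ B, dist (f x) (f y) ≤ s * dist x y + c) (m : List (E × E))
    (hm : ∀ p ∈ m, p.1 ∈ B ∧ p.2 ∈ B) :
    nlen dist (m.map fun e => (f e.1, f e.2)) ≤ s * nlen dist m + c * m.length := by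
  induction m with
  | nil => simp [nlen]
  | cons p m ih =>
    have h1 := ih fun q hq => hm q (List.mem_cons_of_mem _ hq)
    have h2 := hm p List.mem_cons_self
    have h3 := hf _ h2.1 _ h2.2
    simp only [nlen, List.map_cons, List.sum_cons, List.length_cons, Nat.cast_add,
      Nat.cast_one] at h1 ⊢
    linarith

theorem hLIP (hMST : StMST) : StLIP := by
  intro E F _ _ _ B f s c hB hs hc hf
  obtain ⟨m, hm, hmc, hml, hmn⟩ := hMST B hB
  have h1 : mstLen (B.image f) ≤ nlen dist (m.map fun e => (f e.1, f e.2)) := by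
    apply mstLen_le_list _ (hB.image f)
    · intro e he
      rw [List.mem_map] at he
      obtain ⟨e, he, rfl⟩ := he
      exact ⟨mem_image_of_mem f (hm e he).1, mem_image_of_mem f (hm e he).2.1⟩
    · intro a ha b hb
      rw [mem_coe, mem_image] at ha hb
      obtain ⟨a, ha, rfl⟩ := ha
      obtain ⟨b, hb, rfl⟩ := hb
      exact eqvGen_map m f (hmc a ha b hb)
  have h2 := nlen_map_le B f s c hf m fun p hp => ⟨(hm p hp).1, (hm p hp).2.1⟩
  have h3 : (m.length : ℝ) = (B.card : ℝ) - 1 := by
    rw [← hml]; push_cast; ring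
  rw [hmn, h3] at h2
  exact h1.trans h2

end Pool.Agent.Helper28.SG
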